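import Pool.Agent.helper77.BND.SpecD

/-!
Row EMC of project bnd (MP_376aaf_an), owner helper77: the graph of floors is compact.
-/

set_option autoImplicit false

open scoped Topology
open Finset

namespace Pool.Agent.BND

open Pool.Agent.CZ Pool.Agent.PV

theorem EMC (hEME : EME_stmt) : EMC_stmt := by
  intro l hl
  obtain ⟨-, -, hc, -⟩ := hEME l hl
  have h1 : FS l = ⋃ e ∈ range l.N, ⋃ i ∈ range (l.h e), (fun s => emb l e s i) '' U := by
    ext y
    simp only [FS, Set.mem_ofPred_eq, Set.mem_iUnion, Set.mem_image, Finset.mem_range]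
    constructor
    · rintro ⟨e, s, i, he, hs, hi, rfl⟩
      exact ⟨e, he, i, hi, s, hs, rfl⟩
    · rintro ⟨e, he, i, hi, s, hs, rfl⟩
      exact ⟨e, s, i, he, hs, hi, rfl⟩
  rw [h1]
  refine (range l.N).isCompact_biUnion fun e _ => (range (l.h e)).isCompact_biUnion fun i _ => ?_
  exact isCompact_Icc.image (hc e i)

end Pool.Agent.BND
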