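import Pool.Agent.helper77.BND.SpecD

/-!
Row EME of project bnd (MP_376aaf_an), owner helper77: the points of the graph of floors.
-/

set_option autoImplicit false

open scoped Topology
open Finset

namespace Pool.Agent.BND

open Pool.Agent.CZ Pool.Agent.PV

theorem EME_v {l : Lv} {e : ℕ} (he : e < l.n) (s : ℝ) (i : ℕ) : emb l e s i = Pi.single (e, i) 1 := by
  unfold emb
  rw [if_pos he]

theorem EME_0 {l : Lv} {e : ℕ} (he : ¬ e < l.n) (i : ℕ) : emb l e 0 i = Pi.single (fl l.h (l.W e false) i) 1 := by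
  unfold emb
  rw [if_neg he]
  simp

theorem EME_1 {l : Lv} {e : ℕ} (he : ¬ e < l.n) (i : ℕ) : emb l e 1 i = Pi.single (fl l.h (l.W e true) i) 1 := by
  unfold emb
  rw [if_neg he]
  simp

theorem EME (hFLV : FLV_stmt) : EME_stmt := by
  intro l hl
  have hfl : ∀ e i (b : Bool), e < l.N → i < l.h e → (fl l.h (l.W e b) i).1 < l.n ∧
      (fl l.h (l.W e b) i).2 < l.h (fl l.h (l.W e b) i).1 ∧ (i = 0 → (fl l.h (l.W e b) i).2 = 0) := by
    intro e i b he hi
    obtain ⟨h1, P, Q, h2, h3⟩ := hFLV l.h (l.W e b) i (by rw [hl.ht e he b]; exact hi)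
    have h4 : (fl l.h (l.W e b) i).1 ∈ P ++ (fl l.h (l.W e b) i).1 :: Q := by simp
    have h5 : (fl l.h (l.W e b) i).1 ∈ l.W e b := (congrArg (fun L => (fl l.h (l.W e b) i).1 ∈ L) h2).mpr h4
    exact ⟨hl.mem e he b _ h5, h1, fun h0 => by omega⟩
  have h1 : ∀ e i (b : Bool), e < l.N → i < l.h e →
      emb l e (if b then 1 else 0) i = emb l (fl l.h (l.W e b) i).1 0 (fl l.h (l.W e b) i).2 := by
    intro e i b he hi
    rw [EME_v (hfl e i b he hi).1]
    by_cases hn : e < l.n
    · rw [EME_v hn, hl.vtx e hn b]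
      have h5 : fl l.h [e] i = (e, i) := by simp only [fl]; rw [if_pos hi]
      rw [h5]
    · cases b
      · simpa using EME_0 hn i
      · simpa using EME_1 hn i
  refine ⟨h1, fun e s i he => by rw [EME_v he, EME_v he], ?_, ?_⟩
  · intro e i
    unfold emb
    by_cases hn : e < l.n
    · simp only [if_pos hn]
      exact continuous_const
    · simp only [if_neg hn]
      have hc : Continuous fun s : ℝ => (((s * (1 - s) : ℝ) : ℂ) * (1 + (s : ℂ) * Complex.I)) := by fun_prop
      have hs : Continuous fun s : ℝ => (Pi.single (e, i) (((s * (1 - s) : ℝ) : ℂ) * (1 + (s : ℂ) * Complex.I)) : Am) :=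
        (continuous_single (A := fun _ : ℕ × ℕ => ℂ) (e, i)).comp hc
      refine Continuous.add (Continuous.add ?_ ?_) hs
      · have h6 : Continuous fun s : ℝ => ((1 - s : ℝ) : ℂ) := by fun_prop
        exact h6.smul continuous_const
      · exact Complex.continuous_ofReal.smul continuous_const
  · intro e s i he hs hi
    by_cases hn : e < l.n
    · exact ⟨e, s, i, ⟨he, Or.inl hn, hs⟩, hi, rfl, fun h => h⟩
    · by_cases h0 : s = 0
      · obtain ⟨a1, a2, a3⟩ := hfl e i false he hi
        have h7 := h1 e i false he hi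
        rw [if_neg (by simp)] at h7
        refine ⟨_, 0, _, ⟨lt_of_lt_of_le a1 hl.nN, Or.inl a1, ?_⟩, a2, ?_, a3⟩
        · exact ⟨le_rfl, zero_le_one⟩
        · rw [h0]
          exact h7
      · by_cases h1' : s = 1
        · obtain ⟨a1, a2, a3⟩ := hfl e i true he hi
          have h7 := h1 e i true he hi
          rw [if_pos rfl] at h7
          refine ⟨_, 0, _, ⟨lt_of_lt_of_le a1 hl.nN, Or.inl a1, ?_⟩, a2, ?_, a3⟩
          · exact ⟨le_rfl, zero_le_one⟩
          · rw [h1']
            exact h7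
        · refine ⟨e, s, i, ⟨he, Or.inr ⟨lt_of_le_of_ne hs.1 (Ne.symm h0), lt_of_le_of_ne hs.2 h1'⟩, hs⟩, hi, rfl,
            fun h => h⟩

end Pool.Agent.BND
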