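import Pool.Agent.helper77.BND.SpecD

/-!
Row FLM of project bnd (MP_376aaf_an), owner helper77: floors of a composed word.
-/

set_option autoImplicit false

open scoped Topology
open Finset

namespace Pool.Agent.BND

open Pool.Agent.CZ Pool.Agent.PV

theorem FLM (hWAP : WAP_stmt) : FLM_stmt := by
  intro h h' ω u
  induction u with
  | nil =>
    intro _
    refine ⟨by simp [hw], fun R _ σ => by simp [sw], fun Z _ Φ i hi => ?_⟩
    simp at hi
  | cons a u ih =>
    intro hu
    have ha : hw h (ω a) = h' a := hu a List.mem_cons_self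
    obtain ⟨h1, h2, h3⟩ := ih fun v hv => hu v (List.mem_cons_of_mem a hv)
    have hfm : (a :: u).flatMap ω = ω a ++ u.flatMap ω := List.flatMap_cons
    obtain ⟨hA, hB⟩ := hWAP h (ω a) (u.flatMap ω)
    rw [hfm]
    refine ⟨?_, ?_, ?_⟩
    · rw [hA, ha, h1, List.map_cons, List.sum_cons]
    · intro R _ σ
      have h4 : sw σ (ω a ++ u.flatMap ω) = sw σ (ω a) + sw σ (u.flatMap ω) := by simp [sw]
      rw [h4, h2 R σ, List.map_cons, List.sum_cons]
    · intro Z _ Φ i hi
      rw [List.map_cons, List.sum_cons] at hi
      by_cases hc : i < h' a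
      · have h5 : fl h' (a :: u) i = (a, i) := by simp only [fl]; rw [if_pos hc]
        rw [h5]
        exact (hB Z Φ i).1 (by rw [ha]; exact hc)
      · have h5 : fl h' (a :: u) i = fl h' u (i - h' a) := by simp only [fl]; rw [if_neg hc]
        rw [h5, ← h3 Z Φ (i - h' a) (by omega)]
        have h6 := (hB Z Φ (i - h' a)).2
        rw [ha, show h' a + (i - h' a) = i by omega] at h6
        exact h6

end Pool.Agent.BND
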