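import Pool.Agent.helper77.BND.SpecD

/-!
Row WAP of project bnd (MP_376aaf_an), owner helper77: words, concatenation.
-/

set_option autoImplicit false

open scoped Topology
open Finset

namespace Pool.Agent.BND

open Pool.Agent.CZ Pool.Agent.PV

theorem WAP_hw (h : ℕ → ℕ) (P Q : List (ℕ × ℝ)) : hw h (P ++ Q) = hw h P + hw h Q := by
  simp [hw]

theorem WAP_cons (h : ℕ → ℕ) (a : ℕ × ℝ) (P : List (ℕ × ℝ)) : hw h (a :: P) = h a.1 + hw h P := by
  simp [hw]

theorem WAP : WAP_stmt := by
  intro h P Q
  refine ⟨WAP_hw h P Q, ?_⟩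
  intro Z _ Φ
  induction P with
  | nil =>
    intro i
    refine ⟨fun hi => ?_, ?_⟩
    · simp [hw] at hi
    · simp [hw]
  | cons a P ih =>
    intro i
    rw [WAP_cons]
    refine ⟨fun hi => ?_, ?_⟩
    · rw [List.cons_append]
      simp only [fw]
      split_ifs with hc
      · rfl
      · exact (ih (i - h a.1)).1 (by omega)
    · rw [List.cons_append]
      simp only [fw]
      rw [if_neg (by omega)]
      have h1 : h a.1 + hw h P + i - h a.1 = hw h P + i := by omega
      rw [h1]
      exact (ih i).2

end Pool.Agent.BND
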