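import Pool.Agent.helper77.BND.SpecD

/-!
Row WSM of project bnd (MP_376aaf_an), owner helper77: sums over the floors of a word.
-/

set_option autoImplicit false

open scoped Topology
open Finset

namespace Pool.Agent.BND

open Pool.Agent.CZ Pool.Agent.PV

theorem WSM : WSM_stmt := by
  intro h w Z _ Φ R _ f
  induction w with
  | nil => simp [hw, sw]
  | cons a w ih =>
    have h1 : hw h (a :: w) = h a.1 + hw h w := by simp [hw]
    have h2 : sw (fun e s => ∑ i ∈ range (h e), f (Φ e s i)) (a :: w) =
        ∑ i ∈ range (h a.1), f (Φ a.1 a.2 i) + sw (fun e s => ∑ i ∈ range (h e), f (Φ e s i)) w := by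
      simp [sw]
    rw [h1, h2, Finset.sum_range_add, ← ih]
    congr 1
    · refine Finset.sum_congr rfl fun i hi => ?_
      simp only [fw]
      rw [if_pos (Finset.mem_range.1 hi)]
    · refine Finset.sum_congr rfl fun i _ => ?_
      simp only [fw]
      rw [if_neg (by omega), Nat.add_sub_cancel_left]

end Pool.Agent.BND
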