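import Pool.Agent.helper77.BND.SpecD

/-!
Row FLV of project bnd (MP_376aaf_an), owner helper77: the floors of a word in the vertices.
-/

set_option autoImplicit false

open scoped Topology
open Finset

namespace Pool.Agent.BND

open Pool.Agent.CZ Pool.Agent.PV

theorem FLV : FLV_stmt := by
  intro h u
  induction u with
  | nil =>
    intro i hi
    simp at hi
  | cons a u ih =>
    intro i hi
    rw [List.map_cons, List.sum_cons] at hi
    by_cases hc : i < h a
    · have h1 : fl h (a :: u) i = (a, i) := by simp only [fl]; rw [if_pos hc]
      rw [h1]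
      exact ⟨hc, [], u, rfl, by simp⟩
    · have h1 : fl h (a :: u) i = fl h u (i - h a) := by simp only [fl]; rw [if_neg hc]
      rw [h1]
      obtain ⟨h2, P, Q, h3, h4⟩ := ih (i - h a) (by omega)
      refine ⟨h2, a :: P, Q, ?_, ?_⟩
      · rw [List.cons_append, ← h3]
      · rw [List.map_cons, List.sum_cons]
        omega

end Pool.Agent.BND
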